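import Pool.Agent.H13R2.Smp.Defs
import Pool.Agent.H13R2.MB.Mix
import Pool.Agent.H741R2.SST.Alg

/-!
# What the probabilistic part needs about the bases
-/

namespace Pool.Agent.H13R2.Smp

open Pool.Agent.H741R2.SST Pool.Agent.H13R2.MB

/-- Everything the probabilistic part needs about the bases of the complex `L`: `Bs` is the list of
the bases (as masks), `F` the family of their supports. -/
structure Bridge (L : List (List ℕ)) (Bs : List (List Bool))
    (F : Finset (Finset (Fin L.length))) (r : ℕ) (e : List Bool → Finset (Fin L.length)) :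
    Prop where
  isBases : IsBases F r
  nodup : Bs.Nodup
  greedy_mem : greedy (vecs L) ∈ Bs
  mem : ∀ b ∈ Bs, e b ∈ F
  inj : ∀ b ∈ Bs, ∀ b' ∈ Bs, e b = e b' → b = b'
  surj : ∀ B ∈ F, ∃ b ∈ Bs, e b = B
  stp_mem : ∀ b ∈ Bs, ∀ a < 2 * wOf L * wOf L, stp (vecs L) (wOf L) b a ∈ Bs
  kernel : ∀ b ∈ Bs, ∀ b' ∈ Bs, b ≠ b' →
    ((Finset.range (2 * wOf L * wOf L)).filter (fun a => stp (vecs L) (wOf L) b a = b')).card =
      if (e b \ e b').card = 1 then 1 else 0
  tree : ∀ b ∈ Bs, SpanningTree L (outL L b)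
  tree_inj : ∀ b ∈ Bs, ∀ b' ∈ Bs, outL L b = outL L b' → b = b'
  tree_surj : ∀ Υ, SpanningTree L Υ → ∃ b ∈ Bs, outL L b = Υ

end Pool.Agent.H13R2.Smp
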