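import Pool.Agent.H13R2.Smp.Bridge

/-!
# Counting the random numbers that lead to a given basis
-/

namespace Pool.Agent.H13R2.Smp

open Pool.Agent.H741R2.SST Pool.Agent.H13R2.MB Finset

/-! ### The cap does not matter -/

theorem dbl_iterate (P n : ℕ) (hP : 2 ^ n ≤ P) : ∀ i ≤ n,
    (dbl P)^[i] [[]] = (dbl (2 ^ n))^[i] [[]] ∧ ((dbl (2 ^ n))^[i] [[]]).length = 2 ^ i := by
  intro i
  induction i with
  | zero => intro _; exact ⟨rfl, rfl⟩
  | succ i ih =>
    intro hi
    obtain ⟨h1, h2⟩ := ih (by omega)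
    have h3 : 2 * 2 ^ i ≤ 2 ^ n := by
      rw [← pow_succ']
      exact Nat.pow_le_pow_right (by norm_num) hi
    rw [Function.iterate_succ_apply', Function.iterate_succ_apply', h1]
    set l := (dbl (2 ^ n))^[i] [[]]
    have e1 : dbl P l = l.flatMap (fun r => [false :: r, true :: r]) := by
      unfold dbl; rw [if_pos (by omega)]
    have e2 : dbl (2 ^ n) l = l.flatMap (fun r => [false :: r, true :: r]) := by
      unfold dbl; rw [if_pos (by omega)]
    refine ⟨by rw [e1, e2], ?_⟩
    rw [e2]
    have : (l.flatMap (fun r => [false :: r, true :: r])).length = l.length * 2 := by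
      simp [List.length_flatMap]
    rw [this, h2, pow_succ]

theorem bases_cap (vs : List (List ℤ)) {P : ℕ} (hP : 2 ^ vs.length ≤ P) :
    bases P vs = bases (2 ^ vs.length) vs := by
  unfold bases allM
  rw [(dbl_iterate P vs.length hP _ le_rfl).1]

theorem length_bases_le (vs : List (List ℤ)) : (bases (2 ^ vs.length) vs).length ≤ 2 ^ vs.length := by
  unfold bases allM
  refine (List.length_filter_le _ _).trans ?_
  rw [(dbl_iterate (2 ^ vs.length) vs.length le_rfl _ le_rfl).2]

/-! ### The chain -/

theorem chain_top (vs : List (List ℤ)) (w : ℕ) : ∀ (t : ℕ) (b : List Bool) (R a : ℕ),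
    R < (2 * w * w) ^ t →
    chain vs w t b (R + (2 * w * w) ^ t * a) = ((chain vs w t b R).1, a) := by
  intro t
  induction t with
  | zero =>
    intro b R a hR
    have : R = 0 := by simpa using hR
    subst this
    simp [chain]
  | succ t ih =>
    intro b R a hR
    have hA : 0 < 2 * w * w := by
      by_contra h0
      have h0 : 2 * w * w = 0 := by omega
      rw [h0] at hR
      simp at hR
    unfold chain at ih ⊢
    rw [Function.iterate_succ_apply, Function.iterate_succ_apply]
    have e1 : (R + (2 * w * w) ^ (t + 1) * a) % (2 * w * w) = R % (2 * w * w) := by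
      rw [pow_succ', mul_assoc, Nat.add_mul_mod_self_left]
    have e2 : (R + (2 * w * w) ^ (t + 1) * a) / (2 * w * w) =
        R / (2 * w * w) + (2 * w * w) ^ t * a := by
      rw [pow_succ', mul_assoc, Nat.add_mul_div_left _ _ hA]
    simp only [e1, e2]
    refine ih _ _ _ ?_
    rw [pow_succ'] at hR
    exact Nat.div_lt_of_lt_mul hR

theorem chain_succ (vs : List (List ℤ)) (w t : ℕ) (b : List Bool) (R a : ℕ)
    (hR : R < (2 * w * w) ^ t) (ha : a < 2 * w * w) :
    (chain vs w (t + 1) b (R + (2 * w * w) ^ t * a)).1 = stp vs w (chain vs w t b R).1 a := by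
  have h := chain_top vs w t b R a hR
  unfold chain at h ⊢
  rw [Function.iterate_succ_apply', h]
  simp only
  rw [Nat.mod_eq_of_lt ha]

/-- The number of `R < A ^ t` that lead from the greedy basis to `b`. -/
def num (vs : List (List ℤ)) (w t : ℕ) (b : List Bool) : ℕ :=
  ((range ((2 * w * w) ^ t)).filter (fun R => (chain vs w t (greedy vs) R).1 = b)).card

theorem num_zero (vs : List (List ℤ)) (w : ℕ) (b : List Bool) :
    num vs w 0 b = if b = greedy vs then 1 else 0 := by
  unfold num
  rw [pow_zero, range_one, filter_singleton]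
  by_cases h : b = greedy vs
  · rw [if_pos h, if_pos]
    · simp
    · simp [chain, h]
  · rw [if_neg h, if_neg]
    · simp
    · simpa [chain] using fun e => h e.symm

/-- Counting pairs. -/
theorem card_range_mul (A B : ℕ) (P : ℕ → Prop) [DecidablePred P] :
    ((range (A * B)).filter P).card =
      ∑ R ∈ range A, ((range B).filter (fun a => P (R + A * a))).card := by
  rcases Nat.eq_zero_or_pos A with hA | hA
  · subst hA; simp
  rw [← card_sigma]
  refine (card_bij' (fun (x : Σ _ : ℕ, ℕ) _ => x.1 + A * x.2) (fun y _ => ⟨y % A, y / A⟩)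
    ?_ ?_ ?_ ?_).symm
  · rintro ⟨R, a⟩ h
    simp only [mem_sigma, mem_filter, mem_range] at h ⊢
    refine ⟨?_, h.2.2⟩
    have h1 := h.2.1
    have h2 := h.1
    calc R + A * a < A + A * a := by omega
      _ = A * (a + 1) := by ring
      _ ≤ A * B := Nat.mul_le_mul_left _ h1
  · intro y h
    simp only [mem_sigma, mem_filter, mem_range] at h ⊢
    refine ⟨Nat.mod_lt _ hA, Nat.div_lt_of_lt_mul h.1, ?_⟩
    rw [Nat.mod_add_div]
    exact h.2
  · rintro ⟨R, a⟩ h
    simp only [mem_sigma, mem_filter, mem_range] at h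
    simp only [Nat.add_mul_mod_self_left, Nat.mod_eq_of_lt h.1, Sigma.mk.injEq, heq_eq_eq, true_and]
    rw [Nat.add_mul_div_left _ _ hA, Nat.div_eq_of_lt h.1, zero_add]
  · intro y h
    exact Nat.mod_add_div y A

section

variable {L : List (List ℕ)} {Bs : List (List Bool)} {F : Finset (Finset (Fin L.length))} {r : ℕ}
  {e : List Bool → Finset (Fin L.length)}

theorem wOf_pos (L : List (List ℕ)) : 0 < wOf L := by unfold wOf; positivity

/-- `A`. -/
def bas (L : List (List ℕ)) : ℕ := 2 * wOf L * wOf L

theorem bas_pos (L : List (List ℕ)) : 0 < bas L := by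
  have := wOf_pos L
  unfold bas; positivity

theorem Bridge.chain_mem (h : Bridge L Bs F r e) (t : ℕ) : ∀ R < bas L ^ t,
    (chain (vecs L) (wOf L) t (greedy (vecs L)) R).1 ∈ Bs := by
  induction t with
  | zero =>
    intro R _
    exact h.greedy_mem
  | succ t ih =>
    intro R hR
    have hpos : 0 < bas L ^ t := Nat.pow_pos (bas_pos L)
    have h1 : R = R % bas L ^ t + bas L ^ t * (R / bas L ^ t) := (Nat.mod_add_div _ _).symm
    have h2 : R % bas L ^ t < bas L ^ t := Nat.mod_lt _ hpos
    have h3 : R / bas L ^ t < bas L := Nat.div_lt_of_lt_mul (by rwa [← pow_succ])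
    rw [h1]
    unfold bas at h2 h3 ⊢
    rw [chain_succ _ _ _ _ _ _ h2 h3]
    exact h.stp_mem _ (ih _ h2) _ h3

/-- The transition numbers. -/
def ker (L : List (List ℕ)) (b b' : List Bool) : ℕ :=
  ((range (bas L)).filter (fun a => stp (vecs L) (wOf L) b a = b')).card

theorem Bridge.num_succ (h : Bridge L Bs F r e) (t : ℕ) (b' : List Bool) :
    num (vecs L) (wOf L) (t + 1) b' =
      ∑ b ∈ Bs.toFinset, num (vecs L) (wOf L) t b * ker L b b' := by
  have h1 : num (vecs L) (wOf L) (t + 1) b' = ∑ R ∈ range (bas L ^ t),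
      ker L (chain (vecs L) (wOf L) t (greedy (vecs L)) R).1 b' := by
    unfold num
    change ((range ((bas L) ^ (t + 1))).filter _).card = _
    rw [pow_succ, card_range_mul]
    refine sum_congr rfl fun R hR => ?_
    unfold ker
    congr 1
    refine filter_congr fun a ha => ?_
    rw [mem_range] at hR ha
    unfold bas at hR ha ⊢
    rw [chain_succ _ _ _ _ _ _ hR ha]
  rw [h1, ← sum_fiberwise_of_maps_to (s := range (bas L ^ t)) (t := Bs.toFinset)
    (g := fun R => (chain (vecs L) (wOf L) t (greedy (vecs L)) R).1)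
    (fun R hR => List.mem_toFinset.2 (h.chain_mem t R (mem_range.1 hR)))]
  refine sum_congr rfl fun b _ => ?_
  rw [sum_congr rfl (g := fun _ => ker L b b') (fun R hR => by rw [(mem_filter.1 hR).2]), sum_const,
    smul_eq_mul]
  rfl

theorem sum_list_eq (h : Bs.Nodup) (φ : List Bool → ℕ) :
    (Bs.map φ).sum = ∑ b ∈ Bs.toFinset, φ b := by
  rw [List.sum_toFinset _ h]

theorem Bridge.counts_eq (h : Bridge L Bs F r e) (t : ℕ) :
    counts (vecs L) (wOf L) Bs t = Bs.map (num (vecs L) (wOf L) t) := by
  unfold counts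
  induction t with
  | zero =>
    rw [Function.iterate_zero, id_eq]
    refine List.map_congr_left fun b _ => ?_
    rw [num_zero]
  | succ t ih =>
    rw [Function.iterate_succ_apply', ih]
    unfold nextC
    refine List.map_congr_left fun b' _ => ?_
    rw [h.num_succ t b', ← sum_list_eq h.nodup]
    have e1 : Bs.zip (Bs.map (num (vecs L) (wOf L) t)) =
        Bs.map (fun b => (b, num (vecs L) (wOf L) t b)) := by
      rw [List.zip_map_right, List.zip_eq_zipWith, List.zipWith_self, List.map_map]
      rfl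
    rw [e1]
    generalize Bs = l
    induction l with
    | nil => rfl
    | cons b l ihl =>
      rw [List.map_cons, List.flatMap_cons, List.sum_append, ihl, List.map_cons, List.sum_cons]
      congr 1
      simp only [List.map_const', List.sum_replicate, smul_eq_mul]
      rw [mul_comm]
      congr 1

/-! ### The kernel and the exact counts -/

theorem Bridge.ker_ne (h : Bridge L Bs F r e) {b b' : List Bool} (hb : b ∈ Bs) (hb' : b' ∈ Bs)
    (hne : b ≠ b') : ker L b b' = if (e b \ e b').card = 1 then 1 else 0 :=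
  h.kernel b hb b' hb' hne

theorem Bridge.sum_ker (h : Bridge L Bs F r e) {b : List Bool} (hb : b ∈ Bs) :
    ∑ b' ∈ Bs.toFinset, ker L b b' = bas L := by
  have := card_eq_sum_card_fiberwise (s := range (bas L)) (t := Bs.toFinset)
    (f := fun a => stp (vecs L) (wOf L) b a)
    (fun a ha => List.mem_toFinset.2 (h.stp_mem b hb a (mem_range.1 ha)))
  rw [card_range] at this
  exact this.symm

theorem Bridge.card_nb (h : Bridge L Bs F r e) {b : List Bool} (hb : b ∈ Bs) :
    (nb F (e b)).card = ∑ b' ∈ Bs.toFinset.erase b, ker L b b' := by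
  have e1 : ∑ b' ∈ Bs.toFinset.erase b, ker L b b' =
      ∑ b' ∈ Bs.toFinset.erase b, if (e b \ e b').card = 1 then 1 else 0 := by
    refine sum_congr rfl fun b' hb' => ?_
    rw [mem_erase, List.mem_toFinset] at hb'
    exact h.ker_ne hb hb'.2 hb'.1.symm
  rw [e1, ← card_filter]
  symm
  refine card_bij (fun b' _ => e b') ?_ ?_ ?_
  · intro b' hb'
    simp only [mem_filter, mem_erase, List.mem_toFinset] at hb'
    exact mem_filter.2 ⟨h.mem b' hb'.1.2, hb'.2⟩
  · intro b₁ h₁ b₂ h₂ he
    simp only [mem_filter, mem_erase, List.mem_toFinset] at h₁ h₂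
    exact h.inj _ h₁.1.2 _ h₂.1.2 he
  · intro B hB
    obtain ⟨h1, h2⟩ := mem_filter.1 hB
    obtain ⟨b', hb', rfl⟩ := h.surj B h1
    refine ⟨b', ?_, rfl⟩
    simp only [mem_filter, mem_erase, List.mem_toFinset]
    refine ⟨⟨?_, hb'⟩, h2⟩
    rintro rfl
    simp at h2

theorem Bridge.ker_self (h : Bridge L Bs F r e) {b : List Bool} (hb : b ∈ Bs) :
    ker L b b = bas L - (nb F (e b)).card := by
  have h1 := h.sum_ker hb
  rw [← add_sum_erase _ _ (List.mem_toFinset.2 hb), ← h.card_nb hb] at h1
  omega

theorem Bridge.num_eq (h : Bridge L Bs F r e) (t : ℕ) : ∀ b ∈ Bs,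
    num (vecs L) (wOf L) t b = cnt F (bas L) (e (greedy (vecs L))) t (e b) := by
  induction t with
  | zero =>
    intro b hb
    rw [num_zero, cnt]
    by_cases hg : b = greedy (vecs L)
    · rw [if_pos hg, if_pos (by rw [hg])]
    · rw [if_neg hg, if_neg (fun he => hg (h.inj _ hb _ h.greedy_mem he))]
  | succ t ih =>
    intro b hb
    rw [h.num_succ, cnt, ← add_sum_erase _ _ (List.mem_toFinset.2 hb), h.ker_self hb, ih b hb,
      add_comm, mul_comm (cnt _ _ _ _ _)]
    congr 1
    have e1 : ∑ b' ∈ Bs.toFinset.erase b, num (vecs L) (wOf L) t b' * ker L b' b =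
        ∑ b' ∈ Bs.toFinset.erase b, if (e b \ e b').card = 1 then
          cnt F (bas L) (e (greedy (vecs L))) t (e b') else 0 := by
      refine sum_congr rfl fun b' hb' => ?_
      rw [mem_erase, List.mem_toFinset] at hb'
      rw [h.ker_ne hb'.2 hb hb'.1, ih b' hb'.2, sdiff_card_symm
        ((h.isBases.card _ (h.mem _ hb'.2)).trans (h.isBases.card _ (h.mem _ hb)).symm)]
      split_ifs <;> simp
    rw [e1, ← sum_filter]
    refine sum_bij (fun b' _ => e b') ?_ ?_ ?_ ?_
    · intro b' hb'
      simp only [mem_filter, mem_erase, List.mem_toFinset] at hb'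
      exact mem_filter.2 ⟨h.mem b' hb'.1.2, hb'.2⟩
    · intro b₁ h₁ b₂ h₂ he
      simp only [mem_filter, mem_erase, List.mem_toFinset] at h₁ h₂
      exact h.inj _ h₁.1.2 _ h₂.1.2 he
    · intro B hB
      obtain ⟨h1, h2⟩ := mem_filter.1 hB
      obtain ⟨b', hb', rfl⟩ := h.surj B h1
      refine ⟨b', ?_, rfl⟩
      simp only [mem_filter, mem_erase, List.mem_toFinset]
      refine ⟨⟨?_, hb'⟩, h2⟩
      rintro rfl
      simp at h2
    · intro b' _
      rfl

theorem Bridge.two_deg (h : Bridge L Bs F r e) : ∀ B ∈ F, 2 * (nb F B).card ≤ bas L := by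
  intro B hB
  obtain ⟨b, hb, rfl⟩ := h.surj B hB
  have h1 : (nb F (e b)).card ≤ ((range (bas L)).filter (fun a => a % 2 = 1)).card := by
    rw [h.card_nb hb]
    unfold ker
    rw [← card_biUnion]
    · refine card_le_card fun a ha => ?_
      simp only [mem_biUnion, mem_erase, mem_filter] at ha ⊢
      obtain ⟨b', hb', ha1, ha2⟩ := ha
      refine ⟨ha1, ?_⟩
      by_contra h0
      unfold stp at ha2
      rw [if_neg (fun hc => h0 hc.1)] at ha2
      exact hb'.1 ha2.symm
    · intro x _ y _ hxy
      rw [Function.onFun, disjoint_left]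
      intro a ha1 ha2
      exact hxy ((mem_filter.1 ha1).2.symm.trans (mem_filter.1 ha2).2)
  have h2 : ((range (bas L)).filter (fun a => a % 2 = 1)).card ≤ wOf L * wOf L := by
    rw [← card_range (wOf L * wOf L)]
    refine card_le_card_of_injOn (fun a => a / 2) ?_ ?_
    · intro a ha
      simp only [coe_filter, mem_range, Set.mem_ofPred_eq, coe_range, Set.mem_Iio] at ha ⊢
      have : bas L = 2 * (wOf L * wOf L) := by unfold bas; ring
      omega
    · intro a ha b hb hab
      simp only [coe_filter, mem_range, Set.mem_ofPred_eq] at ha hb hab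
      omega
  have : bas L = 2 * (wOf L * wOf L) := by unfold bas; ring
  omega

theorem Bridge.card_F (h : Bridge L Bs F r e) : F.card = Bs.length := by
  rw [← List.toFinset_card_of_nodup h.nodup]
  symm
  refine card_bij (fun b _ => e b) ?_ ?_ ?_
  · intro b hb; exact h.mem b (List.mem_toFinset.1 hb)
  · intro b₁ h₁ b₂ h₂ he
    exact h.inj _ (List.mem_toFinset.1 h₁) _ (List.mem_toFinset.1 h₂) he
  · intro B hB
    obtain ⟨b, hb, rfl⟩ := h.surj B hB
    exact ⟨b, List.mem_toFinset.2 hb, rfl⟩

/-- The sum of all counts. -/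
theorem Bridge.sum_num (h : Bridge L Bs F r e) (t : ℕ) :
    (Bs.map (num (vecs L) (wOf L) t)).sum = bas L ^ t := by
  rw [sum_list_eq h.nodup]
  have := card_eq_sum_card_fiberwise (s := range (bas L ^ t)) (t := Bs.toFinset)
    (f := fun R => (chain (vecs L) (wOf L) t (greedy (vecs L)) R).1)
    (fun R hR => List.mem_toFinset.2 (h.chain_mem t R (mem_range.1 hR)))
  rw [card_range] at this
  exact this.symm

/-- The weights are nonnegative. -/
theorem Bridge.num_le (h : Bridge L Bs F r e) {D t : ℕ} (hm : Bs.length ≤ 2 ^ L.length)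
    (ht : 2 * bas L * (D + L.length) ≤ t) {b : List Bool} (hb : b ∈ Bs) :
    Bs.length * (2 ^ D - 1) * num (vecs L) (wOf L) t b ≤ bas L ^ t * 2 ^ D := by
  have h1 := cnt_le h.isBases (bas L) (bas_pos L) h.two_deg (e (greedy (vecs L)))
    (h.mem _ h.greedy_mem) D L.length t (by rw [h.card_F]; exact hm) ht (e b) (h.mem _ hb)
  rw [h.card_F, ← h.num_eq t b hb] at h1
  rw [mul_comm (bas L ^ t)]
  exact h1

end

end Pool.Agent.H13R2.Smp
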