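import Mathlib

/-!
# Simplicial spanning trees of a simplicial complex given by the list of its faces
-/

namespace Pool.Agent.H13R2.Smp

/-- The list `Δ` is the list of all (nonempty) faces of a finite simplicial complex. A face is the
increasing list of its vertices; the vertices are natural numbers smaller than the number of
faces. -/
structure IsComplex (Δ : List (List ℕ)) : Prop where
  nodup : Δ.Nodup
  ne_nil : ∀ σ ∈ Δ, σ ≠ []
  increasing : ∀ σ ∈ Δ, σ.Pairwise (· < ·)
  closed : ∀ σ ∈ Δ, ∀ τ : List ℕ, τ.Sublist σ → τ ≠ [] → τ ∈ Δ
  vertex : ∀ σ ∈ Δ, ∀ v ∈ σ, v < Δ.length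

/-- The number of vertices of the largest faces: the dimension of the complex plus one. -/
def topSize (Δ : List (List ℕ)) : ℕ := (Δ.map List.length).foldr max 0

/-- The boundary of a face (in the standard orientation): the alternating sum of the faces obtained
by deleting one of its vertices. -/
noncomputable def boundary (σ : List ℕ) : List ℕ →₀ ℚ :=
  ∑ i ∈ Finset.range σ.length, Finsupp.single (σ.eraseIdx i) ((-1 : ℚ) ^ i)

/-- `Υ` (in the order of the list `Δ`) is a spanning tree of `Δ`: a subcomplex containing all faces
of smaller dimension, such that the boundaries of the faces of top dimension of `Υ` are a basis of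
the space spanned by the boundaries of the faces of top dimension of `Δ`. -/
structure SpanningTree (Δ Υ : List (List ℕ)) : Prop where
  sub : Υ.Sublist Δ
  skeleton : ∀ σ ∈ Δ, σ.length < topSize Δ → σ ∈ Υ
  indep : LinearIndepOn ℚ boundary {σ | σ ∈ Υ ∧ σ.length = topSize Δ}
  span : ∀ σ ∈ Δ, σ.length = topSize Δ →
    boundary σ ∈ Submodule.span ℚ (boundary '' {τ | τ ∈ Υ ∧ τ.length = topSize Δ})

end Pool.Agent.H13R2.Smp
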