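import Pool.Agent.H13R2.Smp.Prog

/-!
# The law of the sampler and its expected running time
-/

namespace Pool.Agent.H13R2.Smp

open Pool.Agent.H13R2.MB Finset MeasureTheory ENNReal
open Pool.Agent.H741R2.SST (chain wOf tOf vecs greedy bases outL pick weights counts)
open Pool.Agent.H13R2.RM (coins ones shift Spec Stops fair words)

/-- Exactly one over `N`. -/
theorem law_algebra (N c q k M V : ℕ) (hN : 0 < N) (hV : N * 2 ^ M ≤ 2 ^ V)
    (hq : q + N * (2 ^ k - 1) * c = 2 ^ M * 2 ^ k) :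
    (((2 ^ k - 1 : ℕ) : ℝ≥0∞) / 2 ^ k) * ((c : ℝ≥0∞) / 2 ^ M) +
      (2 ^ k)⁻¹ * (((q : ℝ≥0∞) / 2 ^ V) / (1 - ((2 ^ V - N * 2 ^ M : ℕ) : ℝ≥0∞) / 2 ^ V)) =
      1 / N := by
  have e2 : ∀ n : ℕ, (2 ^ n : ℝ≥0∞) = ENNReal.ofReal ((2 : ℝ) ^ n) := by
    intro n
    rw [ENNReal.ofReal_pow (by norm_num), ENNReal.ofReal_ofNat]
  have ec : ∀ n : ℕ, (n : ℝ≥0∞) = ENNReal.ofReal (n : ℝ) := fun n => (ENNReal.ofReal_natCast n).symm
  have hV0 : (0 : ℝ) < 2 ^ V := by positivity
  have hM0 : (0 : ℝ) < 2 ^ M := by positivity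
  have hk0 : (0 : ℝ) < 2 ^ k := by positivity
  have hNr : (0 : ℝ) < N := by exact_mod_cast hN
  have hsub : (((2 ^ V - N * 2 ^ M : ℕ)) : ℝ) = 2 ^ V - N * 2 ^ M := by
    rw [Nat.cast_sub hV]; push_cast; ring
  have h1 : 1 - ((2 ^ V - N * 2 ^ M : ℕ) : ℝ≥0∞) / 2 ^ V =
      ENNReal.ofReal ((N : ℝ) * 2 ^ M / 2 ^ V) := by
    rw [ec (2 ^ V - N * 2 ^ M), e2 V, ← ENNReal.ofReal_div_of_pos hV0, ← ENNReal.ofReal_one,
      ← ENNReal.ofReal_sub _ (by positivity), hsub]
    congr 1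
    field_simp
    ring
  have hpos : (0 : ℝ) < (N : ℝ) * 2 ^ M / 2 ^ V := by positivity
  rw [h1, ec c, ec q, ec N, ec (2 ^ k - 1), e2 V, e2 M, e2 k, ← ENNReal.ofReal_div_of_pos hV0,
    ← ENNReal.ofReal_div_of_pos hpos, ← ENNReal.ofReal_div_of_pos hk0,
    ← ENNReal.ofReal_div_of_pos hM0, ← ENNReal.ofReal_inv_of_pos hk0,
    ← ENNReal.ofReal_mul (by positivity), ← ENNReal.ofReal_mul (by positivity),
    ← ENNReal.ofReal_add (by positivity) (by positivity), ← ENNReal.ofReal_one,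
    ← ENNReal.ofReal_div_of_pos hNr]
  congr 1
  have hq' : (q : ℝ) + N * ((2 ^ k - 1 : ℕ) : ℝ) * c = 2 ^ M * 2 ^ k := by exact_mod_cast hq
  field_simp
  linarith

section

variable {L : List (List ℕ)} {F : Finset (Finset (Fin L.length))} {r : ℕ}
  {e : List Bool → Finset (Fin L.length)}

theorem length_vecs (L : List (List ℕ)) : (vecs L).length = L.length := by simp [vecs]

theorem length_bases (L : List (List ℕ)) :
    (bases (2 ^ L.length) (vecs L)).length ≤ 2 ^ L.length := by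
  have := length_bases_le (vecs L)
  rwa [length_vecs] at this

theorem tOf_ge (L : List (List ℕ)) (D : ℕ) : 2 * bas L * (D + L.length) ≤ tOf L D := by
  unfold tOf bas
  nlinarith [Nat.zero_le (wOf L * wOf L * (D + L.length))]

theorem fair_fA (h : Bridge L (bases (2 ^ L.length) (vecs L)) F r e) (κ : List Unit) {b : List Bool}
    (hb : b ∈ bases (2 ^ L.length) (vecs L)) :
    fair {ω | fA L κ (coins ω (mOf L κ)) = outL L b} =
      (num (vecs L) (wOf L) (tOf L (kOf L κ)) b : ℝ≥0∞) / 2 ^ mOf L κ := by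
  have h1 := fair_val (mOf L κ) (fun R =>
    outL L (chain (vecs L) (wOf L) (tOf L (kOf L κ)) (greedy (vecs L)) R).1 = outL L b)
  refine Eq.trans h1 ?_
  congr 2
  unfold num
  have e1 : (2 * wOf L * wOf L) ^ tOf L (kOf L κ) = 2 ^ mOf L κ := bas_pow L κ
  rw [e1]
  congr 1
  refine filter_congr fun R hR => ?_
  rw [mem_range, ← bas_pow] at hR
  constructor
  · exact fun he => h.tree_inj _ (h.chain_mem _ R hR) _ hb he
  · intro he; rw [he]

theorem gB_eq (h : Bridge L (bases (2 ^ L.length) (vecs L)) F r e) (κ : List Unit) (u : List Bool) :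
    gB L κ (2 ^ L.length) u =
      ((pick ((bases (2 ^ L.length) (vecs L)).map (fun b => (b,
        wt L (bases (2 ^ L.length) (vecs L)) (kOf L κ) (tOf L (kOf L κ)) b))) (val u)).2).map
        (outL L) := by
  unfold gB
  rw [h.weights_eq]

theorem pick_mem (l : List (List Bool)) (q : List Bool → ℕ) : ∀ (R : ℕ) (b : List Bool),
    (pick (l.map fun b => (b, q b)) R).2 = some b → b ∈ l := by
  induction l with
  | nil => intro R b h; simp [pick_nil] at h
  | cons c l ih =>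
    intro R b h
    rw [List.map_cons, pick_cons] at h
    split_ifs at h
    · simp only [Option.some.injEq] at h
      rw [← h]; simp
    · exact List.mem_cons_of_mem _ (ih _ _ h)

theorem sum_le_bOf (h : Bridge L (bases (2 ^ L.length) (vecs L)) F r e) (κ : List Unit) :
    ((bases (2 ^ L.length) (vecs L)).map
      (wt L (bases (2 ^ L.length) (vecs L)) (kOf L κ) (tOf L (kOf L κ)))).sum =
        (bases (2 ^ L.length) (vecs L)).length * 2 ^ mOf L κ ∧
    (bases (2 ^ L.length) (vecs L)).length * 2 ^ mOf L κ ≤ 2 ^ bOf L κ := by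
  constructor
  · rw [h.sum_wt (length_bases L) (tOf_ge L _), bas_pow]
  · unfold bOf
    rw [pow_add, mul_comm]
    exact Nat.mul_le_mul_left _ (length_bases L)

theorem fair_gB_some (h : Bridge L (bases (2 ^ L.length) (vecs L)) F r e) (κ : List Unit)
    {b : List Bool} (hb : b ∈ bases (2 ^ L.length) (vecs L)) :
    fair {ω | gB L κ (2 ^ L.length) (coins ω (bOf L κ)) = some (outL L b)} =
      (wt L (bases (2 ^ L.length) (vecs L)) (kOf L κ) (tOf L (kOf L κ)) b : ℝ≥0∞) /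
        2 ^ bOf L κ := by
  set Bs := bases (2 ^ L.length) (vecs L) with hBs
  set q := wt L Bs (kOf L κ) (tOf L (kOf L κ)) with hq
  have h1 := fair_val (bOf L κ) (fun R => (pick (Bs.map (fun b => (b, q b))) R).2 = some b)
  obtain ⟨h2, h3⟩ := sum_le_bOf h κ
  have h4 := (card_pick q Bs (2 ^ bOf L κ) h.nodup (h2.le.trans h3)).1 b hb
  rw [h4] at h1
  rw [← h1]
  congr 1
  ext ω
  simp only [Set.mem_ofPred_eq]
  rw [gB_eq h, Option.map_eq_some_iff]
  constructor
  · rintro ⟨b', hb', he⟩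
    rw [hb']
    congr 1
    exact h.tree_inj _ (pick_mem _ _ _ _ hb') _ hb he
  · intro he
    exact ⟨b, he, rfl⟩

theorem fair_gB_none (h : Bridge L (bases (2 ^ L.length) (vecs L)) F r e) (κ : List Unit) :
    fair {ω | gB L κ (2 ^ L.length) (coins ω (bOf L κ)) = none} =
      ((2 ^ bOf L κ - (bases (2 ^ L.length) (vecs L)).length * 2 ^ mOf L κ : ℕ) : ℝ≥0∞) /
        2 ^ bOf L κ := by
  set Bs := bases (2 ^ L.length) (vecs L) with hBs
  set q := wt L Bs (kOf L κ) (tOf L (kOf L κ)) with hq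
  have h1 := fair_val (bOf L κ) (fun R => (pick (Bs.map (fun b => (b, q b))) R).2 = none)
  obtain ⟨h2, h3⟩ := sum_le_bOf h κ
  have h4 := (card_pick q Bs (2 ^ bOf L κ) h.nodup (h2.le.trans h3)).2
  rw [h4, h2] at h1
  rw [← h1]
  congr 1
  ext ω
  simp only [Set.mem_ofPred_eq]
  rw [gB_eq h, Option.map_eq_none_iff]

theorem length_pos (h : Bridge L (bases (2 ^ L.length) (vecs L)) F r e) :
    0 < (bases (2 ^ L.length) (vecs L)).length :=
  List.length_pos_of_mem h.greedy_mem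

/-- **The law is exactly uniform.** -/
theorem law (h : Bridge L (bases (2 ^ L.length) (vecs L)) F r e) (hL : L ≠ []) (κ : List Unit)
    {b : List Bool} (hb : b ∈ bases (2 ^ L.length) (vecs L)) :
    fair {ω | ∃ n, Stops (DD L κ) ω n (outL L b)} =
      1 / ((bases (2 ^ L.length) (vecs L)).length : ℝ≥0∞) := by
  rw [(spec L κ hL).law, fair_fA h κ hb, fair_gB_some h κ hb, fair_gB_none h κ]
  refine law_algebra _ _ _ _ _ _ (length_pos h) (sum_le_bOf h κ).2 ?_
  have h1 := h.num_le (length_bases L) (tOf_ge L (kOf L κ)) hb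
  rw [bas_pow] at h1
  unfold wt
  rw [bas_pow]
  omega

/-- The acceptance probability of a block. -/
theorem accept (h : Bridge L (bases (2 ^ L.length) (vecs L)) F r e) (κ : List Unit) :
    (1 - fair {ω | gB L κ (2 ^ L.length) (coins ω (bOf L κ)) = none})⁻¹ ≤ 2 ^ L.length := by
  rw [fair_gB_none h κ]
  set N := (bases (2 ^ L.length) (vecs L)).length
  have hN : 0 < N := length_pos h
  have hV : N * 2 ^ mOf L κ ≤ 2 ^ bOf L κ := (sum_le_bOf h κ).2
  have hsub : (((2 ^ bOf L κ - N * 2 ^ mOf L κ : ℕ)) : ℝ) = 2 ^ bOf L κ - N * 2 ^ mOf L κ := by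
    rw [Nat.cast_sub hV]; push_cast; ring
  have hV0 : (0 : ℝ) < 2 ^ bOf L κ := by positivity
  have hNr : (0 : ℝ) < N := by exact_mod_cast hN
  have e2 : ∀ n : ℕ, (2 ^ n : ℝ≥0∞) = ENNReal.ofReal ((2 : ℝ) ^ n) := by
    intro n
    rw [ENNReal.ofReal_pow (by norm_num), ENNReal.ofReal_ofNat]
  have ec : ∀ n : ℕ, (n : ℝ≥0∞) = ENNReal.ofReal (n : ℝ) := fun n => (ENNReal.ofReal_natCast n).symm
  have h1 : 1 - ((2 ^ bOf L κ - N * 2 ^ mOf L κ : ℕ) : ℝ≥0∞) / 2 ^ bOf L κ =
      ENNReal.ofReal ((N : ℝ) * 2 ^ mOf L κ / 2 ^ bOf L κ) := by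
    rw [ec (2 ^ bOf L κ - N * 2 ^ mOf L κ), e2 (bOf L κ), ← ENNReal.ofReal_div_of_pos hV0,
      ← ENNReal.ofReal_one, ← ENNReal.ofReal_sub _ (by positivity), hsub]
    congr 1
    field_simp
    ring
  rw [h1, ← ENNReal.ofReal_inv_of_pos (by positivity), e2]
  refine ENNReal.ofReal_le_ofReal ?_
  rw [inv_div, div_le_iff₀ (by positivity)]
  have h2 : (2 : ℝ) ^ bOf L κ = 2 ^ L.length * 2 ^ mOf L κ := by
    unfold bOf; rw [pow_add]; ring
  rw [h2]
  have h3 : (1 : ℝ) ≤ N := by exact_mod_cast hN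
  have h4 : (0 : ℝ) < 2 ^ L.length * 2 ^ mOf L κ := by positivity
  nlinarith

end

end Pool.Agent.H13R2.Smp
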