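import Pool.Agent.H13R2.Smp.Law
import Pool.Agent.H13R2.RM.OfProg

/-!
# The sampling machine
-/

namespace Pool.Agent.H13R2.Smp

open Pool.Agent.H13R2.MB Finset MeasureTheory ENNReal
open Pool.Agent.H741R2.SST (chain wOf tOf vecs greedy bases outL pick weights counts)
open Pool.Agent.H13R2.RM (coins ones shift Spec Stops fair words CoinTM)
open Pool.Agent.NPC (bits sz)

/-! ### The size of the input -/

theorem length_face {L : List (List ℕ)} (hL : IsComplex L) {σ : List ℕ} (hσ : σ ∈ L) :
    σ.length ≤ L.length := by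
  have h1 : σ.Nodup := (hL.increasing σ hσ).imp fun h => h.ne
  rw [← List.toFinset_card_of_nodup h1, ← card_range L.length]
  exact card_le_card fun v hv => mem_range.2 (hL.vertex σ hσ v (List.mem_toFinset.1 hv))

theorem sz_input {L : List (List ℕ)} (hL : IsComplex L) :
    sz L ≤ L.length * (L.length * (4 * L.length + 1 + 1) + 1 + 1) + 1 := by
  refine NPC.sz_le_length_mul L _ fun σ hσ => ?_
  refine (NPC.sz_le_length_mul σ (4 * L.length + 1) fun v hv => ?_).trans ?_
  · refine (NPC.sz_nat_le v).trans ?_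
    have h1 := NPC.Poly.size_le_self v
    have h2 := hL.vertex σ hσ v hv
    omega
  · exact Nat.add_le_add_right (Nat.mul_le_mul_right _ (length_face hL hσ)) 1

/-- bound for the number of coins of the chain -/
noncomputable def mBound (c : ℕ) : Polynomial ℕ :=
  (Polynomial.C 8 * (Polynomial.C 2 * Polynomial.X + Polynomial.C 1) *
    (Polynomial.C 2 * Polynomial.X + Polynomial.C 1) *
    (Polynomial.C c * (Polynomial.X + Polynomial.C 1) + Polynomial.X)) *
    (Polynomial.C 1 + Polynomial.C 2 * Polynomial.X)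

theorem mOf_le (L : List (List ℕ)) (κ : List Unit) :
    mOf L κ ≤ (mBound κ.length).eval L.length := by
  unfold mOf tOf mBound kOf
  simp only [Polynomial.eval_mul, Polynomial.eval_add, Polynomial.eval_C, Polynomial.eval_X]
  have h1 : wOf L ≤ 2 * L.length + 1 := NPC.SST.two_pow_size_le _
  have h2 : L.length.size ≤ L.length := NPC.Poly.size_le_self _
  gcongr

/-- bound for the input length -/
noncomputable def sBound : Polynomial ℕ :=
  Polynomial.X * (Polynomial.X * (Polynomial.C 4 * Polynomial.X + Polynomial.C 1 + Polynomial.C 1) +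
    Polynomial.C 1 + Polynomial.C 1) + Polynomial.C 1

theorem sz_input' {L : List (List ℕ)} (hL : IsComplex L) : sz L ≤ sBound.eval L.length := by
  unfold sBound
  simp only [Polynomial.eval_mul, Polynomial.eval_add, Polynomial.eval_C, Polynomial.eval_X]
  exact sz_input hL

/-- **The sampler**, given the bridge. -/
theorem sampler (HB : ∀ L : List (List ℕ), IsComplex L → 2 ≤ topSize L →
      ∃ F r e, Bridge L (bases (2 ^ L.length) (vecs L)) F r e) :
    ∃ (M : CoinTM) (p : Polynomial ℕ), ∀ L : List (List ℕ), IsComplex L → 2 ≤ topSize L →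
      {Υ | SpanningTree L Υ}.Finite ∧ {Υ | SpanningTree L Υ}.Nonempty ∧
      (∀ Υ, SpanningTree L Υ →
        M.prob (bits L) (bits Υ) = 1 / ({Υ | SpanningTree L Υ}.ncard : ℝ≥0∞)) ∧
      M.expectedTime (bits L) ≤ (p.eval L.length : ℕ) := by
  obtain ⟨q, hq⟩ := RM.exists_machine Psi_poly
  obtain ⟨C, d, hC, hqC⟩ := RM.eval_le_monomial q
  set κ : List Unit := List.replicate (2 * d + 1) () with hκ
  have hκl : κ.length = 2 * d + 1 := by simp [hκ]
  obtain ⟨M, hM⟩ := hq κ
  refine ⟨M, Polynomial.C C * (sBound + Polynomial.C (sz κ) +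
      Polynomial.C (2 * d + 1) * (Polynomial.X + Polynomial.C 1) + mBound (2 * d + 1) +
      Polynomial.C 1) ^ d + Polynomial.C (C * d.factorial) * (sBound + Polynomial.C (sz κ) +
      Polynomial.C (2 * d + 1) * (Polynomial.X + Polynomial.C 1) +
      (mBound (2 * d + 1) + Polynomial.X) + Polynomial.C 2) ^ d, fun L hL h2 => ?_⟩
  obtain ⟨F, r, e, h⟩ := HB L hL h2
  set Bs := bases (2 ^ L.length) (vecs L) with hBs
  have hne : L ≠ [] := by
    rintro rfl
    simp [topSize] at h2
  have hset : {Υ | SpanningTree L Υ} = (Bs.toFinset.image (outL L) : Finset (List (List ℕ))) := by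
    ext Υ
    simp only [Set.mem_ofPred_eq, coe_image, List.coe_toFinset, Set.mem_image]
    constructor
    · exact fun hΥ => h.tree_surj Υ hΥ
    · rintro ⟨b, hb, rfl⟩
      exact h.tree b hb
  have hcard : {Υ | SpanningTree L Υ}.ncard = Bs.length := by
    rw [hset, Set.ncard_coe_finset, card_image_of_injOn, List.toFinset_card_of_nodup h.nodup]
    intro b hb b' hb' he
    simp only [List.coe_toFinset, Set.mem_ofPred_eq] at hb hb'
    exact h.tree_inj _ hb _ hb' he
  have hS := spec L κ hne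
  have hMs : ∀ ω n y, Stops (DD L κ) ω n y →
      ∃ t ≤ q.eval (sz L + sz κ + n), M.OutputsIn (bits L) ω t (bits y) := by
    intro ω n y hn
    refine hM L ω n y (fun i hi => ?_) ?_
    · rw [Psi_coins]; exact hn.1 i hi
    · rw [Psi_coins]; exact hn.2
  -- the law: lower bounds that sum up to one are equalities
  have hlow : ∀ b ∈ Bs, 1 / (Bs.length : ℝ≥0∞) ≤ M.prob (bits L) (bits (outL L b)) := by
    intro b hb
    rw [← law h hne κ hb]
    refine measure_mono ?_
    rintro ω ⟨n, hn⟩
    obtain ⟨t, _, ht⟩ := hMs ω n _ hn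
    exact ⟨t, ht⟩
  have hsum : ∑ b ∈ Bs.toFinset, M.prob (bits L) (bits (outL L b)) ≤ 1 := by
    unfold CoinTM.prob
    rw [← measure_biUnion_finset]
    · exact prob_le_one
    · intro b hb b' hb' hbb'
      rw [Function.onFun, Set.disjoint_left]
      rintro ω ⟨t, ht⟩ ⟨t', ht'⟩
      have h3 := NPC.bits_injective (ht.unique M ht').2
      simp only [List.coe_toFinset, Set.mem_ofPred_eq] at hb hb'
      exact hbb' (h.tree_inj _ hb _ hb' h3)
    · intro b _
      have : {ω | ∃ t, M.OutputsIn (bits L) ω t (bits (outL L b))} =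
          ⋃ t, {ω | M.OutputsIn (bits L) ω t (bits (outL L b))} := by
        ext ω; simp
      rw [this]
      exact MeasurableSet.iUnion fun t => M.measurableSet_outputsIn _ _ _
  have hN0 : (Bs.length : ℝ≥0∞) ≠ 0 := by
    have := length_pos h
    exact_mod_cast this.ne'
  have hNt : (Bs.length : ℝ≥0∞) ≠ ⊤ := ENNReal.natCast_ne_top _
  have heq : ∀ b ∈ Bs, M.prob (bits L) (bits (outL L b)) = 1 / (Bs.length : ℝ≥0∞) := by
    intro b hb
    refine le_antisymm ?_ (hlow b hb)
    have hbF : b ∈ Bs.toFinset := List.mem_toFinset.2 hb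
    have h3 : M.prob (bits L) (bits (outL L b)) +
        ∑ b' ∈ Bs.toFinset.erase b, 1 / (Bs.length : ℝ≥0∞) ≤ 1 := by
      refine le_trans ?_ hsum
      rw [← add_sum_erase _ _ hbF]
      gcongr with b' hb'
      exact hlow b' (List.mem_toFinset.1 (mem_of_mem_erase hb'))
    have h4 : 1 / (Bs.length : ℝ≥0∞) + ∑ b' ∈ Bs.toFinset.erase b, 1 / (Bs.length : ℝ≥0∞) = 1 := by
      rw [add_sum_erase Bs.toFinset (fun _ => 1 / (Bs.length : ℝ≥0∞)) hbF, sum_const,
        List.toFinset_card_of_nodup h.nodup, nsmul_eq_mul, ENNReal.mul_div_cancel hN0 hNt]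
    have hfin : ∑ b' ∈ Bs.toFinset.erase b, 1 / (Bs.length : ℝ≥0∞) ≠ ⊤ := by
      intro htop
      rw [htop, add_top] at h4
      exact absurd h4 (by simp)
    exact (ENNReal.add_le_add_iff_right hfin).1 (h3.trans h4.ge)
  refine ⟨?_, ?_, ?_, ?_⟩
  · rw [hset]; exact Finset.finite_toSet _
  · exact ⟨_, h.tree _ h.greedy_mem⟩
  · intro Υ hΥ
    obtain ⟨b, hb, rfl⟩ := h.tree_surj Υ hΥ
    rw [hcard, heq b hb]
  · have hT : ∀ ω n y, Stops (DD L κ) ω n y →
        M.time (bits L) ω ≤ (C * (sz L + sz κ + n + 1) ^ d : ℕ) := by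
      intro ω n y hn
      obtain ⟨t, ht, hout⟩ := hMs ω n y hn
      refine (M.time_le hout).trans ?_
      have h3 := hqC (sz L + sz κ + n)
      exact_mod_cast (by omega : t ≤ C * (sz L + sz κ + n + 1) ^ d)
    have h3 := hS.time (M.time (bits L)) C d (sz L + sz κ) hT hC
    refine h3.trans ?_
    have h4 := accept h κ
    have hk : L.length * (2 * d + 1) ≤ kOf L κ := by
      unfold kOf
      rw [hκl]
      nlinarith
    have hkeq : kOf L κ = (2 * d + 1) * (L.length + 1) := by unfold kOf; rw [hκl]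
    have hm := mOf_le L κ
    rw [hκl] at hm
    have hs := sz_input' hL
    have h5 : ((2 : ℝ≥0∞) ^ kOf L κ)⁻¹ * ((C * (sz L + sz κ + kOf L κ + 2 ^ L.length +
        bOf L κ + 1) ^ d : ℕ) * (d.factorial * ((1 - fair {ω | gB L κ (2 ^ L.length)
          (coins ω (bOf L κ)) = none})⁻¹) ^ (d + 1))) ≤
        ((C * d.factorial * (sz L + sz κ + kOf L κ + bOf L κ + 2) ^ d : ℕ) : ℝ≥0∞) := by
      have h6 : ((C * (sz L + sz κ + kOf L κ + 2 ^ L.length + bOf L κ + 1) ^ d : ℕ) : ℝ≥0∞) ≤
          ((C * (sz L + sz κ + kOf L κ + bOf L κ + 2) ^ d * 2 ^ (L.length * d) : ℕ) : ℝ≥0∞) := by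
        norm_cast
        rw [pow_mul, mul_assoc, ← mul_pow]
        refine Nat.mul_le_mul_left _ (Nat.pow_le_pow_left ?_ d)
        have : 1 ≤ 2 ^ L.length := Nat.one_le_two_pow
        nlinarith
      have h7 : ((1 - fair {ω | gB L κ (2 ^ L.length) (coins ω (bOf L κ)) = none})⁻¹) ^ (d + 1) ≤
          (((2 ^ L.length) ^ (d + 1) : ℕ) : ℝ≥0∞) := by
        refine (pow_le_pow_left' h4 (d + 1)).trans ?_
        push_cast
        exact le_rfl
      refine (mul_le_mul_right (mul_le_mul' h6 (mul_le_mul_right h7 _)) _).trans ?_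
      have h8 : (C * (sz L + sz κ + kOf L κ + bOf L κ + 2) ^ d * 2 ^ (L.length * d)) *
          (d.factorial * (2 ^ L.length) ^ (d + 1)) ≤
          2 ^ kOf L κ * (C * d.factorial * (sz L + sz κ + kOf L κ + bOf L κ + 2) ^ d) := by
        have e1 : 2 ^ (L.length * d) * (2 ^ L.length) ^ (d + 1) ≤ 2 ^ kOf L κ := by
          rw [← pow_mul, ← pow_add]
          refine Nat.pow_le_pow_right (by norm_num) ?_
          nlinarith
        calc (C * (sz L + sz κ + kOf L κ + bOf L κ + 2) ^ d * 2 ^ (L.length * d)) *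
            (d.factorial * (2 ^ L.length) ^ (d + 1)) =
            (2 ^ (L.length * d) * (2 ^ L.length) ^ (d + 1)) *
              (C * d.factorial * (sz L + sz κ + kOf L κ + bOf L κ + 2) ^ d) := by ring
          _ ≤ _ := Nat.mul_le_mul_right _ e1
      have hp0 : (2 : ℝ≥0∞) ^ kOf L κ ≠ 0 := by positivity
      have hpt : (2 : ℝ≥0∞) ^ kOf L κ ≠ ⊤ := ENNReal.pow_ne_top (by norm_num)
      rw [ENNReal.inv_mul_le_iff hp0 hpt]
      exact_mod_cast h8
    refine (add_le_add_right h5 _).trans ?_
    norm_cast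
    simp only [Polynomial.eval_mul, Polynomial.eval_add, Polynomial.eval_C, Polynomial.eval_X,
      Polynomial.eval_pow]
    have hb : bOf L κ ≤ (mBound (2 * d + 1)).eval L.length + L.length := by
      unfold bOf; omega
    refine Nat.add_le_add ?_ ?_
    · refine Nat.mul_le_mul_left _ (Nat.pow_le_pow_left ?_ d)
      rw [hkeq]
      omega
    · refine Nat.mul_le_mul_left _ (Nat.pow_le_pow_left ?_ d)
      rw [hkeq]
      omega

end Pool.Agent.H13R2.Smp
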