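import Pool.Agent.H13R2.Smp.Count
import Pool.Agent.H13R2.RM.Coins
import Pool.Agent.NPC.Num

/-!
# Random numbers from coins; choosing from a weighted list
-/

namespace Pool.Agent.H13R2.Smp

open Pool.Agent.H741R2.SST Pool.Agent.H13R2.MB Finset Pool.Agent.NPC MeasureTheory ENNReal
open Pool.Agent.H13R2.RM (words fair fair_coins)

/-- The number given by a list of coins. -/
def val (w : List Bool) : ℕ := valB w.reverse

theorem val_cons (c : Bool) (w : List Bool) :
    val (c :: w) = (if c then 2 ^ w.length else 0) + val w := by
  unfold val
  rw [List.reverse_cons, valB_append, List.length_reverse]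
  cases c <;> simp [add_comm]

theorem words_val (n : ℕ) : ((words n).map val).Perm (List.range (2 ^ n)) := by
  induction n with
  | zero => simp [words, val]
  | succ n ih =>
    rw [words, List.map_append, List.map_map, List.map_map, pow_succ, mul_two, List.range_add]
    refine List.perm_append_comm.trans (List.Perm.append ?_ ?_)
    · refine (List.Perm.of_eq (List.map_congr_left fun w _ => ?_)).trans ih
      simp [val_cons]
    · have e1 : (words n).map (val ∘ fun x => true :: x) =
          ((words n).map val).map (fun x => 2 ^ n + x) := by
        rw [List.map_map]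
        refine List.map_congr_left fun w hw => ?_
        have : w.length = n := RM.mem_words.1 hw
        simp [val_cons, this]
      rw [e1]
      exact ih.map _

theorem fair_val (n : ℕ) (P : ℕ → Prop) [DecidablePred P] :
    fair {ω | P (val (RM.coins ω n))} = (((range (2 ^ n)).filter P).card : ℝ≥0∞) / 2 ^ n := by
  have h := fair_coins n (fun w => decide (P (val w)))
  simp only [decide_eq_true_eq] at h
  rw [h]
  congr 2
  have e1 : (words n).countP (fun w => decide (P (val w))) =
      ((words n).map val).countP (fun x => decide (P x)) := by
    rw [List.countP_map]; rfl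
  rw [e1, (words_val n).countP_eq, List.countP_eq_length_filter, ← List.toFinset_range,
    ← List.toFinset_card_of_nodup (List.nodup_range.filter _)]
  congr 1
  ext x
  simp

/-! ### The weighted choice -/

theorem foldl_some {f : ℕ × Option (List Bool) → List Bool × ℕ → ℕ × Option (List Bool)}
    (hf : ∀ R b p, f (R, some b) p = (R, some b)) (l : List (List Bool × ℕ)) (R : ℕ)
    (b : List Bool) : l.foldl f (R, some b) = (R, some b) := by
  induction l with
  | nil => rfl
  | cons p l ih => rw [List.foldl_cons, hf]; exact ih

theorem pick_nil (R : ℕ) : (pick [] R).2 = none := rfl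

theorem pick_cons (p : List Bool × ℕ) (l : List (List Bool × ℕ)) (R : ℕ) :
    (pick (p :: l) R).2 = if R < p.2 then some p.1 else (pick l (R - p.2)).2 := by
  unfold pick
  rw [List.foldl_cons]
  simp only
  split_ifs with h
  · rw [foldl_some (fun _ _ _ => rfl)]
  · rfl

theorem card_pick_cons (p : List Bool × ℕ) (l : List (List Bool × ℕ)) (V : ℕ) (hV : p.2 ≤ V)
    (o : Option (List Bool)) :
    ((range V).filter (fun R => (pick (p :: l) R).2 = o)).card =
      (if o = some p.1 then p.2 else 0) +
        ((range (V - p.2)).filter (fun R => (pick l R).2 = o)).card := by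
  have e1 : (range V).filter (fun R => (pick (p :: l) R).2 = o) =
      ((range p.2).filter (fun _ => o = some p.1)) ∪
      (((range (V - p.2)).filter (fun R => (pick l R).2 = o)).map (addLeftEmbedding p.2)) := by
    ext R
    simp only [mem_filter, mem_range, mem_union, mem_map, addLeftEmbedding_apply, pick_cons]
    constructor
    · rintro ⟨h1, h2⟩
      by_cases h : R < p.2
      · rw [if_pos h] at h2
        exact Or.inl ⟨h, h2.symm⟩
      · rw [if_neg h] at h2
        exact Or.inr ⟨R - p.2, ⟨by omega, h2⟩, by omega⟩
    · rintro (⟨h1, h2⟩ | ⟨R', ⟨h1, h2⟩, rfl⟩)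
      · exact ⟨by omega, by rw [if_pos h1]; exact h2.symm⟩
      · refine ⟨by omega, ?_⟩
        rw [if_neg (by omega), Nat.add_sub_cancel_left]
        exact h2
  rw [e1, card_union_of_disjoint, card_map]
  · congr 1
    by_cases h : o = some p.1
    · simp [h]
    · simp [h]
  · rw [disjoint_left]
    intro R h1 h2
    simp only [mem_filter, mem_range, mem_map, addLeftEmbedding_apply] at h1 h2
    obtain ⟨R', _, rfl⟩ := h2
    omega

/-- The number of random numbers that choose a given entry. -/
theorem card_pick (q : List Bool → ℕ) : ∀ (l : List (List Bool)) (V : ℕ), l.Nodup →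
    (l.map q).sum ≤ V →
    (∀ b ∈ l, ((range V).filter (fun R => (pick (l.map fun b => (b, q b)) R).2 = some b)).card =
      q b) ∧
    ((range V).filter (fun R => (pick (l.map fun b => (b, q b)) R).2 = none)).card =
      V - (l.map q).sum := by
  intro l
  induction l with
  | nil =>
    intro V _ _
    refine ⟨by simp, ?_⟩
    simp only [List.map_nil, pick_nil, List.sum_nil, Nat.sub_zero]
    simp
  | cons b l ih =>
    intro V hnd hV
    rw [List.nodup_cons] at hnd
    rw [List.map_cons, List.sum_cons] at hV
    obtain ⟨h1, h2⟩ := ih (V - q b) hnd.2 (by omega)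
    refine ⟨?_, ?_⟩
    · intro b' hb'
      rw [List.map_cons, card_pick_cons _ _ _ (by simp only; omega)]
      simp only [Option.some.injEq]
      by_cases h : b' = b
      · subst h
        rw [if_pos rfl]
        have h3 : ((range (V - q b')).filter
            (fun R => (pick (l.map fun b => (b, q b)) R).2 = some b')) = ∅ := by
          have key : ∀ (l : List (List Bool)), b' ∉ l → ∀ R,
              (pick (l.map fun b => (b, q b)) R).2 ≠ some b' := by
            intro l
            induction l with
            | nil => intro _ R; simp [pick_nil]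
            | cons c l ihl =>
              intro hc R
              rw [List.mem_cons, not_or] at hc
              rw [List.map_cons, pick_cons]
              split_ifs
              · simpa using fun e => hc.1 e.symm
              · exact ihl hc.2 _
          refine filter_eq_empty_iff.2 fun R _ => key l hnd.1 R
        rw [h3, card_empty, add_zero]
      · rw [if_neg h, zero_add]
        rcases List.mem_cons.1 hb' with h' | h'
        · exact absurd h' h
        · exact h1 b' h'
    · rw [List.map_cons, card_pick_cons _ _ _ (by simp only; omega), h2]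
      simp only [reduceCtorEq, if_false, zero_add, List.map_cons, List.sum_cons]
      omega

section

variable {L : List (List ℕ)} {Bs : List (List Bool)} {F : Finset (Finset (Fin L.length))} {r : ℕ}
  {e : List Bool → Finset (Fin L.length)}

/-- The weight of `b`. -/
def wt (L : List (List ℕ)) (Bs : List (List Bool)) (D t : ℕ) (b : List Bool) : ℕ :=
  bas L ^ t * 2 ^ D - Bs.length * (2 ^ D - 1) * num (vecs L) (wOf L) t b

theorem Bridge.weights_eq (h : Bridge L Bs F r e) (D t : ℕ) :
    Bs.zip (weights Bs.length D (bas L ^ t) (counts (vecs L) (wOf L) Bs t)) =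
      Bs.map (fun b => (b, wt L Bs D t b)) := by
  unfold weights
  rw [h.counts_eq, List.map_map, List.zip_map_right, List.zip_eq_zipWith, List.zipWith_self,
    List.map_map]
  rfl

theorem Bridge.sum_wt (h : Bridge L Bs F r e) {D t : ℕ} (hm : Bs.length ≤ 2 ^ L.length)
    (ht : 2 * bas L * (D + L.length) ≤ t) :
    (Bs.map (wt L Bs D t)).sum = Bs.length * bas L ^ t := by
  have h1 : ∀ l : List (List Bool), (∀ b ∈ l, b ∈ Bs) →
      (l.map (wt L Bs D t)).sum + Bs.length * (2 ^ D - 1) * (l.map (num (vecs L) (wOf L) t)).sum =
        l.length * (bas L ^ t * 2 ^ D) := by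
    intro l
    induction l with
    | nil => simp
    | cons b l ih =>
      intro hl
      have h2 := ih (fun b hb => hl b (List.mem_cons_of_mem _ hb))
      have h3 := h.num_le hm ht (hl b (by simp))
      have h4 : wt L Bs D t b + Bs.length * (2 ^ D - 1) * num (vecs L) (wOf L) t b =
          bas L ^ t * 2 ^ D := by
        unfold wt; omega
      simp only [List.map_cons, List.sum_cons, List.length_cons]
      linarith
  have h2 := h1 Bs (fun _ hb => hb)
  rw [h.sum_num] at h2
  have h3 : 1 ≤ 2 ^ D := Nat.one_le_two_pow
  obtain ⟨x, hx⟩ : ∃ x, 2 ^ D = x + 1 := ⟨2 ^ D - 1, by omega⟩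
  rw [hx, Nat.add_sub_cancel] at h2
  have h4 : Bs.length * (bas L ^ t * (x + 1)) = Bs.length * x * bas L ^ t +
      Bs.length * bas L ^ t := by ring
  omega

end

end Pool.Agent.H13R2.Smp
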