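import Pool.Agent.H13R2.Smp.Pick
import Pool.Agent.H13R2.RM.Time
import Pool.Agent.H741R2.SST.AlgPoly2

/-!
# The sampling algorithm as a decision rule
-/

namespace Pool.Agent.H13R2.Smp

open Pool.Agent.NPC Pool.Agent.NPC.SST
open Pool.Agent.H741R2.SST (chain wOf tOf vecs greedy bases outL pick weights counts)
open Pool.Agent.H13R2.RM (coins ones shift Spec coins_add coins_length)

/-- The number of coins that decide between the two phases. -/
def kOf (L : List (List ℕ)) (κ : List Unit) : ℕ := κ.length * (L.length + 1)

/-- The number of coins of a run of the chain. -/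
def mOf (L : List (List ℕ)) (κ : List Unit) : ℕ := tOf L (kOf L κ) * (1 + 2 * L.length.size)

/-- The number of coins of a block of the correction phase. -/
def bOf (L : List (List ℕ)) (κ : List Unit) : ℕ := mOf L κ + L.length

theorem bas_eq (L : List (List ℕ)) : bas L = 2 ^ (1 + 2 * L.length.size) := by
  unfold bas wOf
  rw [pow_add, pow_one, two_mul L.length.size, pow_add]
  ring

theorem bas_pow (L : List (List ℕ)) (κ : List Unit) : bas L ^ tOf L (kOf L κ) = 2 ^ mOf L κ := by
  rw [bas_eq, ← pow_mul, mul_comm]
  rfl

/-- The output of the chain. -/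
def fA (L : List (List ℕ)) (κ : List Unit) (u : List Bool) : List (List ℕ) :=
  outL L (chain (vecs L) (wOf L) (tOf L (kOf L κ)) (greedy (vecs L)) (val u)).1

/-- The correction. -/
def gB (L : List (List ℕ)) (κ : List Unit) (P : ℕ) (u : List Bool) : Option (List (List ℕ)) :=
  ((pick ((bases P (vecs L)).zip (weights (bases P (vecs L)).length (kOf L κ)
    (bas L ^ tOf L (kOf L κ)) (counts (vecs L) (wOf L) (bases P (vecs L)) (tOf L (kOf L κ)))))
    (val u)).2).map (outL L)

/-- The decision rule: what to do after the coins `w`. -/
def DD (L : List (List ℕ)) (κ : List Unit) (w : List Bool) : Option (List (List ℕ)) :=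
  bif ones (w.take (kOf L κ)) then
    (bif decide (kOf L κ + 2 ^ L.length < w.length) &&
        decide ((w.length - (kOf L κ + 2 ^ L.length)) % bOf L κ = 0) then
      gB L κ w.length (w.drop (w.length - bOf L κ)) else none)
  else (bif decide (w.length = kOf L κ + mOf L κ) then some (fA L κ (w.drop (kOf L κ))) else none)

theorem gB_cap (L : List (List ℕ)) (κ : List Unit) {P : ℕ} (hP : 2 ^ L.length ≤ P) :
    gB L κ P = gB L κ (2 ^ L.length) := by
  have h1 : (vecs L).length = L.length := by simp [vecs]
  have h2 := bases_cap (vecs L) (P := P) (by rw [h1]; exact hP)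
  rw [h1] at h2
  funext u
  unfold gB
  rw [h2]

theorem take_coins (ω : ℕ → Bool) {k n : ℕ} (h : k ≤ n) : (coins ω n).take k = coins ω k := by
  obtain ⟨j, rfl⟩ := Nat.exists_eq_add_of_le h
  rw [coins_add, List.take_left' (coins_length ω k)]

theorem drop_coins (ω : ℕ → Bool) (k j : ℕ) : (coins ω (k + j)).drop k = coins (shift k ω) j := by
  rw [coins_add, List.drop_left' (coins_length ω k)]

theorem spec (L : List (List ℕ)) (κ : List Unit) (hL : L ≠ []) :
    Spec (DD L κ) (kOf L κ) (mOf L κ) (2 ^ L.length) (bOf L κ) (fA L κ)
      (gB L κ (2 ^ L.length)) := by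
  have hpos : 0 < L.length := List.length_pos_iff.2 hL
  have hb : 0 < bOf L κ := by unfold bOf; omega
  have h2L : 0 < 2 ^ L.length := by positivity
  have hnone : ∀ (ω : ℕ → Bool) n, n < kOf L κ → DD L κ (coins ω n) = none := by
    intro ω n hn
    unfold DD
    have e1 : decide (kOf L κ + 2 ^ L.length < (coins ω n).length) = false := by
      rw [coins_length]; simp; omega
    have e2 : decide ((coins ω n).length = kOf L κ + mOf L κ) = false := by
      rw [coins_length]; simp; omega
    rw [e1, e2]
    simp
  refine ⟨hb, ?_, ?_, ?_, ?_⟩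
  · intro ω n ho hn
    by_cases hk : n < kOf L κ
    · exact hnone ω n hk
    · unfold DD
      rw [take_coins ω (not_lt.1 hk), ho]
      have e2 : decide ((coins ω n).length = kOf L κ + mOf L κ) = false := by
        rw [coins_length]; simp; omega
      rw [e2]
      rfl
  · intro ω ho
    unfold DD
    rw [take_coins ω (Nat.le_add_right _ _), ho, coins_length, drop_coins]
    simp
  · intro ω n ho hn
    by_cases hk : n < kOf L κ
    · exact hnone ω n hk
    · unfold DD
      rw [take_coins ω (not_lt.1 hk), ho, coins_length]
      have e1 : (decide (kOf L κ + 2 ^ L.length < n) &&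
          decide ((n - (kOf L κ + 2 ^ L.length)) % bOf L κ = 0)) = false := by
        rw [Bool.and_eq_false_iff]
        by_contra hcon
        push Not at hcon
        simp only [ne_eq, Bool.not_eq_false, decide_eq_true_eq] at hcon
        obtain ⟨h1, h2⟩ := hcon
        obtain ⟨q, hq⟩ := Nat.dvd_of_mod_eq_zero h2
        cases q with
        | zero => omega
        | succ q =>
          refine hn q ?_
          rw [mul_comm] at hq
          omega
      rw [e1]
      rfl
  · intro ω j ho
    set n := kOf L κ + 2 ^ L.length + (j + 1) * bOf L κ with hn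
    have h1 : (j + 1) * bOf L κ = j * bOf L κ + bOf L κ := by ring
    unfold DD
    rw [take_coins ω (by omega), ho, coins_length]
    have e1 : (decide (kOf L κ + 2 ^ L.length < n) &&
        decide ((n - (kOf L κ + 2 ^ L.length)) % bOf L κ = 0)) = true := by
      rw [Bool.and_eq_true, decide_eq_true_eq, decide_eq_true_eq]
      refine ⟨by omega, ?_⟩
      have : n - (kOf L κ + 2 ^ L.length) = (j + 1) * bOf L κ := by omega
      rw [this, Nat.mul_mod_left]
    rw [e1]
    have e2 : n = (kOf L κ + 2 ^ L.length + j * bOf L κ) + bOf L κ := by omega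
    have e3 : n - bOf L κ = kOf L κ + 2 ^ L.length + j * bOf L κ := by omega
    have e4 : (coins ω n).drop (n - bOf L κ) =
        coins (shift (kOf L κ + 2 ^ L.length + j * bOf L κ) ω) (bOf L κ) := by
      rw [e3]
      conv_lhs => rw [e2]
      rw [drop_coins]
    rw [e4]
    change gB L κ n _ = _
    rw [gB_cap L κ (by omega)]

end Pool.Agent.H13R2.Smp

/-! ### The rule is computable in polynomial time -/

namespace Pool.Agent.NPC.H13S

open Pool.Agent.NPC Pool.Agent.NPC.SST Pool.Agent.H13R2.Smp
open Pool.Agent.H741R2.SST (chain wOf tOf vecs greedy bases outL pick weights counts)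
open Pool.Agent.H13R2.RM (coins ones shift Spec coins_add coins_length)

section

variable {α β : Type} [TEnc α] [TEnc β]

omit [TEnc β] in
theorem take_eq (l : List β) (i k : ℕ) :
    ((l.zipIdx k).filter fun q => decide (q.2 < k + i)).map Prod.fst = l.take i := by
  induction l generalizing i k with
  | nil => simp
  | cons x l ih =>
      rw [List.zipIdx_cons]
      cases i with
      | zero =>
          rw [List.take_zero, List.map_eq_nil_iff, List.filter_eq_nil_iff]
          intro q hq
          rw [decide_eq_true_iff]
          rcases List.mem_cons.1 hq with rfl | hq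
          · simp
          · have := List.le_snd_of_mem_zipIdx hq
            omega
      | succ i =>
          rw [List.filter_cons, if_pos (by simp), List.map_cons, List.take_succ_cons, ← ih i (k + 1)]
          congr 3
          funext q
          congr 1
          rw [eq_iff_iff]
          omega

omit [TEnc β] in
theorem drop_eq (l : List β) (i k : ℕ) :
    ((l.zipIdx k).filter fun q => decide (k + i ≤ q.2)).map Prod.fst = l.drop i := by
  induction l generalizing i k with
  | nil => simp
  | cons x l ih =>
      rw [List.zipIdx_cons]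
      cases i with
      | zero =>
          rw [List.drop_zero, List.filter_eq_self.2]
          · rw [List.map_cons]
            congr 1
            have := ih 0 (k + 1)
            rw [List.drop_zero, List.filter_eq_self.2] at this
            · exact this
            · intro q hq
              have := List.le_snd_of_mem_zipIdx hq
              rw [decide_eq_true_iff]
              omega
          · intro q hq
            rw [decide_eq_true_iff]
            rcases List.mem_cons.1 hq with rfl | hq
            · simp
            · have := List.le_snd_of_mem_zipIdx hq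
              omega
      | succ i =>
          rw [List.filter_cons, if_neg (by simp), List.drop_succ_cons, ← ih i (k + 1)]
          congr 2
          funext q
          congr 1
          rw [eq_iff_iff]
          omega

theorem poly_take {l : α → List β} {n : α → ℕ} (hl : Poly l) (hn : Poly n) :
    Poly (fun a => (l a).take (n a)) := by
  refine (Poly.map (F := fun _ (q : β × ℕ) => q.1) (Poly.filter
    (p := fun a (q : β × ℕ) => decide (q.2 < n a)) (Poly.zipIdx hl)
    (Poly.decide_lt (Poly.snd (Poly.snd Poly.id)) (hn.comp (Poly.fst Poly.id))))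
    (Poly.fst (Poly.snd Poly.id))).congr fun a => ?_
  have := take_eq (l a) (n a) 0
  simp only [Nat.zero_add] at this
  exact this

theorem poly_drop {l : α → List β} {n : α → ℕ} (hl : Poly l) (hn : Poly n) :
    Poly (fun a => (l a).drop (n a)) := by
  refine (Poly.map (F := fun _ (q : β × ℕ) => q.1) (Poly.filter
    (p := fun a (q : β × ℕ) => decide (n a ≤ q.2)) (Poly.zipIdx hl)
    (Poly.decide_le (hn.comp (Poly.fst Poly.id)) (Poly.snd (Poly.snd Poly.id))))
    (Poly.fst (Poly.snd Poly.id))).congr fun a => ?_
  have := drop_eq (l a) (n a) 0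
  simp only [Nat.zero_add] at this
  exact this

variable {L : α → List (List ℕ)} {κ : α → List Unit}

theorem kOf_poly (hL : Poly L) (hκ : Poly κ) : UPoly (fun a => kOf (L a) (κ a)) :=
  (UPoly.length hκ).mul ((UPoly.length hL).add (UPoly.const 1))

theorem mOf_poly (hL : Poly L) (hκ : Poly κ) : UPoly (fun a => mOf (L a) (κ a)) :=
  (tOf_poly hL (kOf_poly hL hκ)).mul ((UPoly.const 1).add ((UPoly.const 2).mul
    (uSize (Poly.length hL))))

theorem bOf_poly (hL : Poly L) (hκ : Poly κ) : UPoly (fun a => bOf (L a) (κ a)) :=
  (mOf_poly hL hκ).add (UPoly.length hL)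

theorem val_poly {u : α → List Bool} (hu : Poly u) : Poly (fun a => val (u a)) :=
  Poly.valBits (Poly.reverse hu)

theorem fA_poly (hL : Poly L) (hκ : Poly κ) {u : α → List Bool} (hu : Poly u) :
    Poly (fun a => fA (L a) (κ a) (u a)) := by
  unfold fA
  have hw := (wOf_poly hL).toPoly
  have ht := tOf_poly hL (kOf_poly hL hκ)
  have hv := val_poly hu
  have hc : Poly (fun a => chain (vecs (L a)) (wOf (L a)) (tOf (L a) (kOf (L a) (κ a)))
      (greedy (vecs (L a))) (val (u a))) :=
    chain_poly (by fun_prop) hw ht (by fun_prop) hv
  fun_prop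

theorem gB_poly (hL : Poly L) (hκ : Poly κ) {P : α → ℕ} (hP : UPoly P) {u : α → List Bool}
    (hu : Poly u) : Poly (fun a => gB (L a) (κ a) (P a) (u a)) := by
  have hk := kOf_poly hL hκ
  have hw := wOf_poly hL
  have hw' := hw.toPoly
  have ht := tOf_poly hL hk
  have hb := bases_poly hP (vecs_poly hL)
  have hbas : Poly (fun a => bas (L a)) := by unfold bas; fun_prop
  have hWt : Poly (fun a => bas (L a) ^ tOf (L a) (kOf (L a) (κ a))) := Poly.npow hbas ht
  have hcs := counts_poly (vecs_poly hL) hw hb ht
  have hwt := weights_poly (Poly.length hb) hk hWt hcs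
  have hpk := pick_poly (Poly.zip hb hwt) (val_poly hu)
  unfold gB
  exact Poly.optMap_fp (h := fun a b => outL (L a) b) (Poly.snd hpk) (by fun_prop)

theorem ones_poly {u : α → List Bool} (hu : Poly u) : Poly (fun a => ones (u a)) :=
  Poly.all (p := fun _ b => b) hu (Poly.snd Poly.id)

theorem DD_poly (hL : Poly L) (hκ : Poly κ) {w : α → List Bool} (hw : Poly w) :
    Poly (fun a => DD (L a) (κ a) (w a)) := by
  have hk := (kOf_poly hL hκ).toPoly
  have hm := (mOf_poly hL hκ).toPoly
  have hb := (bOf_poly hL hκ).toPoly
  have hK : Poly (fun a => 2 ^ (L a).length) := Poly.npow (Poly.const 2) (UPoly.length hL)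
  have hlen := Poly.length hw
  unfold DD
  refine Poly.cond (ones_poly (poly_take hw hk)) (Poly.cond (by fun_prop)
    (gB_poly hL hκ (UPoly.length hw) (poly_drop hw (by fun_prop))) (Poly.const none))
    (Poly.cond (by fun_prop) (Poly.some (fA_poly hL hκ (poly_drop hw hk))) (Poly.const none))

end

end Pool.Agent.NPC.H13S

namespace Pool.Agent.H13R2.Smp

open Pool.Agent.NPC Pool.Agent.NPC.SST
open Pool.Agent.H741R2.SST (chain wOf tOf vecs greedy bases outL pick weights counts)
open Pool.Agent.H13R2.RM (coins ones shift Spec coins_add coins_length)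

/-- The function computed by the machine. -/
def Psi (p : List Bool × (List (List ℕ) × List Unit)) : Option (List (List ℕ)) :=
  DD p.2.1 p.2.2 p.1.reverse

theorem Psi_poly : NPC.Poly Psi :=
  NPC.H13S.DD_poly (NPC.Poly.fst (NPC.Poly.snd NPC.Poly.id))
    (NPC.Poly.snd (NPC.Poly.snd NPC.Poly.id)) (NPC.Poly.reverse (NPC.Poly.fst NPC.Poly.id))

theorem Psi_coins (L : List (List ℕ)) (κ : List Unit) (ω : ℕ → Bool) (n : ℕ) :
    Psi ((coins ω n).reverse, (L, κ)) = DD L κ (coins ω n) := by
  unfold Psi
  rw [List.reverse_reverse]

end Pool.Agent.H13R2.Smp
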