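import Pool.Agent.H13R2.Smp.Bridge

/-!
# Interface (stub, not used by any hand-in)
-/

namespace Pool.Agent.H13R2.Smp

open Pool.Agent.H741R2.SST Pool.Agent.H13R2.MB

/-- The bridge (to be proved by helper741). -/
theorem bridge {L : List (List ℕ)} (hL : IsComplex L) (h2 : 2 ≤ topSize L) :
    ∃ F r e, Bridge L (bases (2 ^ L.length) (vecs L)) F r e := by
  sorry

end Pool.Agent.H13R2.Smp
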